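import Pool.Agent.W934.Bond.Base

/-! MP_484915_co, part BOND-B: the domination number of the graph is at least 6, and at least 7
after deleting 7 edges. -/

namespace Pool.Agent.W193.Bond

open Pool.Agent.W934.Bond

/-- no set of `k` more closed neighbourhoods (as bit masks) covers the complement of `m`; the table
contains for each vertex the masks of the closed neighbourhoods which contain it -/
def chk (tab : List (ℕ × List ℕ)) : ℕ → ℕ → Bool
  | 0, m => (m &&& 1073741823) != 1073741823
  | k + 1, m => match tab.find? (fun p => !(m.testBit p.1)) with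
    | none => false
    | some p => p.2.all fun w => chk tab k (m ||| w)

theorem sound (A : Fin 30 → ℕ) (tab : List (ℕ × List ℕ))
    (htab : ∀ p ∈ tab, p.1 < 30 ∧ ∀ u : Fin 30, (A u).testBit p.1 = true → A u ∈ p.2) :
    ∀ k m, chk tab k m = true → ∀ D : Finset (Fin 30), D.card ≤ k →
      ¬ ∀ v : Fin 30, m.testBit v = true ∨ ∃ u ∈ D, (A u).testBit v = true := by
  intro k
  induction k with
  | zero =>
    intro m hm D hD h
    have hD0 : D = ∅ := Finset.card_eq_zero.mp (Nat.le_zero.mp hD)
    subst hD0
    have h1 : ∀ v : Fin 30, m.testBit v = true := by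
      intro v
      rcases h v with h2 | ⟨u, hu, _⟩
      · exact h2
      · exact absurd hu (Finset.notMem_empty u)
    simp only [chk, bne_iff_ne, ne_eq] at hm
    apply hm
    apply Nat.eq_of_testBit_eq
    intro i
    rw [Nat.testBit_and, show (1073741823 : ℕ) = 2 ^ 30 - 1 by norm_num,
      Nat.testBit_two_pow_sub_one]
    by_cases hi : i < 30
    · have := h1 ⟨i, hi⟩
      simp only at this
      rw [this, decide_eq_true hi]; rfl
    · rw [decide_eq_false hi, Bool.and_false]
  | succ k ih =>
    intro m hm D hD h
    simp only [chk] at hm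
    split at hm
    · exact absurd hm (by simp)
    · rename_i p hp
      have hpm : p ∈ tab := List.mem_of_find?_eq_some hp
      have hpb0 := List.find?_some hp
      have hpb : (!(m.testBit p.1)) = true := hpb0
      obtain ⟨hp30, hpA⟩ := htab p hpm
      rcases h ⟨p.1, hp30⟩ with h1 | ⟨u, hu, hub⟩
      · simp only at h1
        rw [h1] at hpb
        exact absurd hpb (by simp)
      · have h2 := List.all_eq_true.mp hm (A u) (hpA u hub)
        refine ih (m ||| A u) h2 (D.erase u) ?_ ?_
        · rw [Finset.card_erase_of_mem hu]; omega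
        · intro v
          rw [Nat.testBit_or]
          rcases h v with h3 | ⟨u', hu', hub'⟩
          · left; rw [h3]; rfl
          · by_cases hq : u' = u
            · subst hq
              left; rw [hub', Bool.or_true]
            · right
              exact ⟨u', Finset.mem_erase.mpr ⟨hq, hu'⟩, hub'⟩

/-! ### The graph -/

/-- closed neighbourhoods -/
def cl1 (u : Fin 30) : ℕ := nb u ||| 2 ^ (u : ℕ)

def tab1 : List (ℕ × List ℕ) :=
  [(1, [119, 175, 287, 1053070, 540899, 1066154]),
   (15, [26264704, 574624, 21545984, 4768352, 357073408, 834700288]),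
   (20, [1053070, 1066154, 26264704, 1120520, 43063296, 9507976, 596706304]),
   (7, [175, 1053070, 540899, 1066154, 26264704, 574624, 9507976]),
   (27, [237373440, 715196416, 476185088, 1042284544, 1027604480, 998244352]),
   (16, [35985664, 1120520, 43063296, 9507976, 596706304, 715196416]),
   (23, [26264704, 43063296, 9507976, 596706304, 834700288, 715196416, 998244352]),
   (14, [540899, 1066154, 26264704, 574624, 21545984, 4768352]),
   (25, [35985664, 43063296, 237373440, 596706304, 715196416, 1042284544, 998244352]),
   (17, [71967296, 402000, 69607936, 2500880, 237373440, 476185088]),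
   (5, [119, 175, 540899, 533105, 1066154, 574624, 4768352]),
   (18, [270677, 268572, 35985664, 402000, 69607936, 2500880, 237373440]),
   (28, [357073408, 834700288, 476185088, 1042284544, 1027604480, 998244352]),
   (29, [596706304, 834700288, 715196416, 1042284544, 1027604480, 998244352]),
   (8, [287, 1053070, 270677, 268572, 35985664, 1120520, 2500880]),
   (24, [26264704, 21545984, 357073408, 596706304, 834700288, 1027604480, 998244352]),
   (4, [119, 287, 270677, 533105, 268572, 402000, 2500880]),
   (21, [35985664, 69607936, 2500880, 237373440, 715196416, 476185088, 1042284544]),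
   (2, [119, 175, 287, 1053070, 270677, 268572]),
   (11, [268572, 35985664, 1120520, 43063296, 2500880, 237373440, 715196416]),
   (0, [119, 175, 287, 270677, 540899, 533105]),
   (13, [270677, 533105, 71967296, 402000, 69607936, 2500880]),
   (3, [175, 287, 1053070, 1066154, 268572, 1120520, 9507976]),
   (9, [533105, 71967296, 402000, 69607936, 4768352, 357073408, 476185088]),
   (22, [71967296, 21545984, 4768352, 357073408, 834700288, 476185088, 1027604480]),
   (6, [119, 270677, 540899, 533105, 71967296, 402000, 4768352]),
   (12, [1053070, 268572, 35985664, 1120520, 43063296, 9507976]),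
   (10, [1066154, 26264704, 574624, 21545984, 9507976, 596706304, 834700288]),
   (19, [540899, 533105, 71967296, 574624, 21545984, 4768352, 357073408]),
   (26, [71967296, 69607936, 237373440, 357073408, 476185088, 1042284544, 1027604480])]

theorem htab1 : ∀ p ∈ tab1, p.1 < 30 ∧ ∀ u : Fin 30, (cl1 u).testBit p.1 = true → cl1 u ∈ p.2 := by
  decide +kernel

theorem run1 : chk tab1 5 0 = true := by decide +kernel

theorem cl1_of (u v : Fin 30) (h : v = u ∨ G.Adj u v) : (cl1 u).testBit v = true := by
  unfold cl1
  rw [Nat.testBit_or]
  rcases h with rfl | h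
  · rw [Nat.testBit_two_pow_self, Bool.or_true]
  · have h1 : (nb u).testBit v = true := h
    rw [h1]; rfl

theorem dom6 (D : Finset (Fin 30)) (h : ∀ v : Fin 30, v ∈ D ∨ ∃ u ∈ D, G.Adj u v) :
    6 ≤ D.card := by
  by_contra hD
  refine sound cl1 tab1 htab1 5 0 run1 D (by omega) ?_
  intro v
  right
  rcases h v with h1 | ⟨u, hu, huv⟩
  · exact ⟨v, h1, cl1_of v v (Or.inl rfl)⟩
  · exact ⟨u, hu, cl1_of u v (Or.inr huv)⟩

/-! ### Seven edges deleted -/

def E7 : Finset (Sym2 (Fin 30)) := {s(5,14), s(10,15), s(14,15), s(15,19), s(15,22), s(15,24), s(23,29)}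

/-- closed neighbourhoods after deleting the seven edges -/
def clL : List ℕ := [119, 175, 287, 1053070, 270677, 524515, 533105, 1066154, 268572, 71967296, 26231936, 35985664, 1120520, 402000, 541824, 32768, 43063296, 69607936, 2500880, 4735584, 9507976, 237373440, 357040640, 59835392, 834667520, 715196416, 476185088, 1042284544, 1027604480, 989855744]

def cl2 (u : Fin 30) : ℕ := clL.getD u 0

def tab2 : List (ℕ × List ℕ) :=
  [(15, [32768]),
   (0, [119, 175, 287, 270677, 524515, 533105]),
   (14, [1066154, 26231936, 541824, 4735584]),
   (17, [71967296, 402000, 69607936, 2500880, 237373440, 476185088]),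
   (8, [287, 1053070, 270677, 268572, 35985664, 1120520, 2500880]),
   (26, [71967296, 69607936, 237373440, 357040640, 476185088, 1042284544, 1027604480]),
   (4, [119, 287, 270677, 533105, 268572, 402000, 2500880]),
   (29, [834667520, 715196416, 1042284544, 1027604480, 989855744]),
   (5, [119, 175, 524515, 533105, 1066154, 4735584]),
   (22, [71967296, 4735584, 357040640, 834667520, 476185088, 1027604480]),
   (9, [533105, 71967296, 402000, 69607936, 4735584, 357040640, 476185088]),
   (18, [270677, 268572, 35985664, 402000, 69607936, 2500880, 237373440]),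
   (21, [35985664, 69607936, 2500880, 237373440, 715196416, 476185088, 1042284544]),
   (10, [1066154, 26231936, 541824, 9507976, 59835392, 834667520]),
   (2, [119, 175, 287, 1053070, 270677, 268572]),
   (28, [357040640, 834667520, 476185088, 1042284544, 1027604480, 989855744]),
   (16, [35985664, 1120520, 43063296, 9507976, 59835392, 715196416]),
   (7, [175, 1053070, 524515, 1066154, 26231936, 541824, 9507976]),
   (24, [26231936, 357040640, 59835392, 834667520, 1027604480, 989855744]),
   (6, [119, 270677, 524515, 533105, 71967296, 402000, 4735584]),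
   (20, [1053070, 1066154, 26231936, 1120520, 43063296, 9507976, 59835392]),
   (27, [237373440, 715196416, 476185088, 1042284544, 1027604480, 989855744]),
   (1, [119, 175, 287, 1053070, 524515, 1066154]),
   (25, [35985664, 43063296, 237373440, 59835392, 715196416, 1042284544, 989855744]),
   (3, [175, 287, 1053070, 1066154, 268572, 1120520, 9507976]),
   (12, [1053070, 268572, 35985664, 1120520, 43063296, 9507976]),
   (23, [26231936, 43063296, 9507976, 59835392, 834667520, 715196416]),
   (13, [270677, 533105, 71967296, 402000, 69607936, 2500880]),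
   (19, [524515, 533105, 71967296, 541824, 4735584, 357040640]),
   (11, [268572, 35985664, 1120520, 43063296, 2500880, 237373440, 715196416])]

theorem htab2 : ∀ p ∈ tab2, p.1 < 30 ∧ ∀ u : Fin 30, (cl2 u).testBit p.1 = true → cl2 u ∈ p.2 := by
  decide +kernel

theorem run2 : chk tab2 6 0 = true := by decide +kernel

theorem cl2_self : ∀ u : Fin 30, (cl2 u).testBit u = true := by decide +kernel

theorem cl2_adj : ∀ u v : Fin 30, adjB u v = true → s(u, v) ∉ E7 → (cl2 u).testBit v = true := by
  decide +kernel

theorem e7 : (↑E7 : Set (Sym2 (Fin 30))) ⊆ G.edgeSet ∧ E7.card ≤ 8 ∧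
    ∀ D : Finset (Fin 30), (∀ v : Fin 30, v ∈ D ∨ ∃ u ∈ D,
      (G.deleteEdges (↑E7 : Set (Sym2 (Fin 30)))).Adj u v) → 7 ≤ D.card := by
  refine ⟨?_, by decide +kernel, ?_⟩
  · intro e he
    have he' : e ∈ E7 := he
    simp only [E7, Finset.mem_insert, Finset.mem_singleton] at he'
    rcases he' with rfl | rfl | rfl | rfl | rfl | rfl | rfl <;>
      (rw [SimpleGraph.mem_edgeSet]; show adjB _ _ = true; decide +kernel)
  · intro D h
    by_contra hD
    refine sound cl2 tab2 htab2 6 0 run2 D (by omega) ?_
    intro v
    right
    rcases h v with h1 | ⟨u, hu, huv⟩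
    · exact ⟨v, h1, cl2_self v⟩
    · rw [SimpleGraph.deleteEdges_adj] at huv
      exact ⟨u, hu, cl2_adj u v huv.1 huv.2⟩

end Pool.Agent.W193.Bond
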